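import Pool.Agent.Helper77.SND.Stmts

/-! MP_7ef5a1_co: module GLUE. -/

set_option autoImplicit false

namespace Pool.Agent.Helper77.SND

theorem st_GLUE : ST_GLUE := by
  classical
  intro V W _ _ G S τ h1 h2
  let j : W → V ⊕ {w : W // τ w = none} := fun w =>
    if h : τ w = none then Sum.inr ⟨w, h⟩
    else Sum.inl ((τ w).get (Option.ne_none_iff_isSome.1 h))
  have hj1 : ∀ w v, j w = Sum.inl v ↔ τ w = some v := by
    intro w v
    by_cases h : τ w = none
    · simp [j, h]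
    · obtain ⟨u, hu⟩ := Option.ne_none_iff_exists'.1 h
      simp [j, hu]
  have hj2 : ∀ w (h : τ w = none), j w = Sum.inr ⟨w, h⟩ := by
    intro w h
    simp [j, h]
  have hji : Function.Injective j := by
    intro w w' hw
    by_cases h : τ w = none
    · by_cases h' : τ w' = none
      · rw [hj2 w h, hj2 w' h'] at hw
        exact congrArg Subtype.val (Sum.inr_injective hw)
      · obtain ⟨u, hu⟩ := Option.ne_none_iff_exists'.1 h'
        rw [(hj1 w' u).2 hu] at hw
        rw [(hj1 w u).1 hw] at h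
        cases h
    · obtain ⟨u, hu⟩ := Option.ne_none_iff_exists'.1 h
      rw [(hj1 w u).2 hu] at hw
      exact h1 w w' u hu ((hj1 w' u).1 hw.symm)
  let G' : SimpleGraph (V ⊕ {w : W // τ w = none}) :=
    { Adj := fun y z => y ≠ z ∧ ((∃ a b, G.Adj a b ∧ y = Sum.inl a ∧ z = Sum.inl b) ∨
        ∃ w w', S.Adj w w' ∧ y = j w ∧ z = j w')
      symm := ⟨fun y z h => by
        refine ⟨h.1.symm, ?_⟩
        rcases h.2 with ⟨a, b, hab, ha, hb⟩ | ⟨w, w', hw, ha, hb⟩
        · exact Or.inl ⟨b, a, hab.symm, hb, ha⟩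
        · exact Or.inr ⟨w', w, hw.symm, hb, ha⟩⟩
      loopless := ⟨fun _ h => h.1 rfl⟩ }
  refine ⟨V ⊕ {w : W // τ w = none}, inferInstance, G', Sum.inl, j, Sum.inl_injective, hji, hj1,
    ?_, ?_, ?_, ?_, ?_⟩
  · intro z
    rcases z with v | ⟨w, hw⟩
    · exact Or.inl ⟨v, rfl⟩
    · exact Or.inr ⟨w, hw, (hj2 w hw).symm⟩
  · intro x y
    constructor
    · rintro ⟨-, ⟨a, b, hab, ha, hb⟩ | ⟨w, w', hw, ha, hb⟩⟩
      · cases ha
        cases hb
        exact hab
      · exact h2 w w' x y ((hj1 w x).1 ha.symm) ((hj1 w' y).1 hb.symm) hw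
    · intro h
      exact ⟨fun h' => h.ne (Sum.inl_injective h'), Or.inl ⟨x, y, h, rfl, rfl⟩⟩
  · intro w w' h
    exact ⟨fun h' => h.ne (hji h'), Or.inr ⟨w, w', h, rfl, rfl⟩⟩
  · rintro w z hw ⟨-, ⟨a, b, hab, ha, hb⟩ | ⟨w1, w', hw1, ha, hb⟩⟩
    · rw [(hj1 w a).1 ha] at hw
      cases hw
    · have := hji ha
      subst this
      exact ⟨w', hb, hw1⟩
  · intro c d hcd
    let e : Sym2 (V ⊕ {w : W // τ w = none}) → Bool := fun z =>
      if h : ∃ p : V × V, G.Adj p.1 p.2 ∧ z = s(Sum.inl p.1, Sum.inl p.2) then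
        c s(h.choose.1, h.choose.2)
      else if h' : ∃ p : W × W, S.Adj p.1 p.2 ∧ z = s(j p.1, j p.2) then
        d s(h'.choose.1, h'.choose.2)
      else false
    refine ⟨e, ?_, ?_⟩
    · intro x y hxy
      have h : ∃ p : V × V, G.Adj p.1 p.2 ∧
          (s(Sum.inl x, Sum.inl y) : Sym2 (V ⊕ {w : W // τ w = none})) =
            s(Sum.inl p.1, Sum.inl p.2) := ⟨(x, y), hxy, rfl⟩
      have he : e s(Sum.inl x, Sum.inl y) = c s(h.choose.1, h.choose.2) := dif_pos h
      rw [he]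
      have h3 := h.choose_spec.2
      rw [Sym2.eq_iff] at h3
      rcases h3 with ⟨h4, h5⟩ | ⟨h4, h5⟩
      · rw [← Sum.inl_injective h4, ← Sum.inl_injective h5]
      · rw [← Sum.inl_injective h4, ← Sum.inl_injective h5, Sym2.eq_swap]
    · intro w w' hw
      by_cases h : ∃ p : V × V, G.Adj p.1 p.2 ∧ s(j w, j w') = s(Sum.inl p.1, Sum.inl p.2)
      · have he : e s(j w, j w') = c s(h.choose.1, h.choose.2) := dif_pos h
        rw [he]
        have h3 := h.choose_spec.2
        rw [Sym2.eq_iff] at h3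
        rcases h3 with ⟨h4, h5⟩ | ⟨h4, h5⟩
        · exact (hcd w w' _ _ ((hj1 _ _).1 h4) ((hj1 _ _).1 h5) hw).symm
        · rw [Sym2.eq_swap (a := h.choose.1)]
          exact (hcd w w' _ _ ((hj1 _ _).1 h4) ((hj1 _ _).1 h5) hw).symm
      · have h' : ∃ p : W × W, S.Adj p.1 p.2 ∧ s(j w, j w') = s(j p.1, j p.2) :=
          ⟨(w, w'), hw, rfl⟩
        have he : e s(j w, j w') = d s(h'.choose.1, h'.choose.2) := by
          change (if h : _ then _ else _) = _
          rw [dif_neg h, dif_pos h']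
        rw [he]
        have h3 := h'.choose_spec.2
        rw [Sym2.eq_iff] at h3
        rcases h3 with ⟨h4, h5⟩ | ⟨h4, h5⟩
        · rw [← hji h4, ← hji h5]
        · rw [← hji h4, ← hji h5, Sym2.eq_swap]

end Pool.Agent.Helper77.SND
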